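import Pool.Agent.VEA.Classes
import Pool.Agent.VD.Main
import Pool.Agent.VD.Build
import Pool.Agent.VD.RankP
/-!
# Elementary amenable subgroups: groups acting properly on finite-dimensional acyclic complexes
-/
namespace Pool.Agent.VEA
open Pool.Agent.SLX Pool.Agent.VN Pool.Agent.VS Pool.Agent.VD

/-- The length and its properties, and the bound for the ranks of the free abelian subgroups. -/
theorem data_or {G : Type} [Group G] (h : HasSystem G)
    (hG : (∃ D : ℕ, VNP.AsdimLE G D) ∨ ∃ d : ℕ, ProperDim G d) :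
    ∃ (l : G → ℕ) (κ D : ℕ), l 1 = 0 ∧ (∀ g h, l (g * h) ≤ l g + l h) ∧
      (∀ g, l g⁻¹ ≤ κ * l g) ∧
      (∀ T : ℕ, ∃ S : Set G, S.Finite ∧ ∀ w, TauLe l T w → ∃ x, x⁻¹ * w * x ∈ S) ∧
      ∀ (n : ℕ) (φ : Multiplicative (Fin n → ℤ) →* G), Function.Injective φ → n ≤ D := by
  rcases hG with ⟨D, hD⟩ | ⟨d, hd⟩
  · obtain ⟨l, κ, h1, h2, h3, h4⟩ := data_of_system h hD
    exact ⟨l, κ, D, h1, h2, h3, h4, fun n φ hφ => rank_le_of_injective hD φ hφ⟩
  · obtain ⟨A, hA, hlin, π, E, hE⟩ := h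
    obtain ⟨F⟩ := exists_NF hE
    obtain ⟨κ, hκ⟩ := F.exists_inv
    exact ⟨F.l, κ, d, F.l_one, F.l_mul, hκ,
      fun T => classes_finite F (conj_short2 F (dimP_of_proper F hd)) T,
      fun n φ hφ => rank_le_of_proper hd φ hφ⟩

/-- Elementary amenable subgroups are finitely generated, virtually abelian and undistorted. -/
theorem proper_ea {G : Type} [Group G] (h : HasSystem G) (hr : VN.ResFin G)
    (hG : (∃ D : ℕ, VNP.AsdimLE G D) ∨ ∃ d : ℕ, ProperDim G d)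
    (P : Subgroup G) (hP : ElementaryAmenable P) :
    (∃ H : Subgroup G, H ≤ P ∧ H.relIndex P ≠ 0 ∧ (∀ a ∈ H, ∀ b ∈ H, a * b = b * a)) ∧
      P.FG ∧ Undistorted P := by
  obtain ⟨l, κ, D, hone, hmul, hinv, hcl, hrk⟩ := data_or h hG
  obtain ⟨T, _, hT, h3⟩ := rf_kernel l hcl hr 1
  have hfg := ab_fg l hone hmul hinv hcl hr hrk
  have hC : Ctx T D := by
    refine ⟨?_, hfg, ?_, ?_, hrk⟩
    · intro x hx n hn hxn
      exact h3 x hx (tauLe_of_tors l hn hxn)
    · intro A hA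
      obtain ⟨K, _, h5, h6⟩ := rf_normalizer l hone hmul hcl hr A (hfg A hA) hA
      exact ⟨K, h5, h6⟩
    · intro P P0 h0 h0i h0s
      exact (rf_vsolvable l hone hmul hinv hcl hr hrk P P0 h0 h0i h0s).1
  obtain ⟨A, h1, h2, h3⟩ := elemamen_va hC hT P hP
  refine rf_vsolvable l hone hmul hinv hcl hr hrk P A h1 h2 ?_
  let _ : CommGroup A := { (inferInstance : Group A) with
    mul_comm := fun a b => Subtype.ext (h3 a a.2 b b.2) }
  exact Group.isSolvable_of_comm (fun a b => mul_comm a b)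

/-- The same for the three classes of groups. -/
theorem ea_all {G : Type} [Group G] (h : HasSystem G)
    (hG : (∃ (n : ℕ) (ρ : G →* GL (Fin n) ℝ), Function.Injective ρ ∧ DiscreteTopology ρ.range) ∨
      (∃ (K : Type) (_ : Field K) (_ : NumberField K) (n : ℕ) (ρ : G →* GL (Fin n) K),
        Function.Injective ρ) ∨
      Group.ResiduallyFinite G ∧ ((∃ D : ℕ, VNP.AsdimLE G D) ∨ ∃ d : ℕ, ProperDim G d))
    (P : Subgroup G) (hP : ElementaryAmenable P) :
    (∃ H : Subgroup G, H ≤ P ∧ H.relIndex P ≠ 0 ∧ (∀ a ∈ H, ∀ b ∈ H, a * b = b * a)) ∧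
      P.FG ∧ Undistorted P := by
  have key : VN.ResFin G ∧ ((∃ D : ℕ, VNP.AsdimLE G D) ∨ ∃ d : ℕ, ProperDim G d) := by
    rcases hG with h1 | h1 | ⟨hr, h2⟩
    · have h3 := classes_rf h (Or.inr (Or.inl h1))
      exact ⟨h3.1, Or.inl h3.2⟩
    · have h3 := classes_rf h (Or.inr (Or.inr h1))
      exact ⟨h3.1, Or.inl h3.2⟩
    · refine ⟨fun g hg => ?_, h2⟩
      obtain ⟨N, hN⟩ := Group.exists_finiteIndexNormalSubgroup_notMem g hg
      exact ⟨N.toSubgroup, inferInstance, inferInstance, hN⟩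
  exact proper_ea h key.1 key.2 P hP

end Pool.Agent.VEA
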