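import Pool.Agent.VEA.Defs
import Pool.Agent.VN.NormalAb
/-!
# Torsion free virtually abelian groups
-/
namespace Pool.Agent.VEA

variable {G : Type} [Group G]

/-- A torsion free group with a central subgroup of finite index is abelian. -/
theorem ab_of_central {T : Subgroup G} (tf : ∀ x ∈ T, ∀ n : ℕ, 0 < n → x ^ n = 1 → x = 1)
    (X D : Subgroup G) (hX : X ≤ T) (hc : ∀ d ∈ D, ∀ x ∈ X, d * x = x * d)
    (hi : D.relIndex X ≠ 0) : ∀ a ∈ X, ∀ b ∈ X, a * b = b * a := by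
  have h1 : D.subgroupOf X ≤ Subgroup.center X := by
    intro x hx
    rw [Subgroup.mem_center_iff]
    intro y
    apply Subtype.ext
    exact (hc x.1 (Subgroup.mem_subgroupOf.1 hx) y.1 y.2).symm
  have : (D.subgroupOf X).FiniteIndex := ⟨hi⟩
  have : (Subgroup.center X).FiniteIndex := Subgroup.finiteIndex_of_le h1
  have hinj : Function.Injective (MonoidHom.transferCenterPow X) := by
    rw [injective_iff_map_eq_one]
    intro x hx
    have h2 : (x : X) ^ (Subgroup.center X).index = 1 := by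
      rw [← MonoidHom.transferCenterPow_apply, hx]
      rfl
    apply Subtype.ext
    apply tf x.1 (hX x.2) _ (Nat.pos_of_ne_zero
      (Subgroup.FiniteIndex.index_ne_zero (H := Subgroup.center X)))
    have h3 := congrArg Subtype.val h2
    exact h3
  intro a ha b hb
  have h4 : MonoidHom.transferCenterPow X (⟨a, ha⟩ * ⟨b, hb⟩) =
      MonoidHom.transferCenterPow X (⟨b, hb⟩ * ⟨a, ha⟩) := by
    rw [map_mul, map_mul]
    apply Subtype.ext
    exact Subgroup.mem_center_iff.1 (MonoidHom.transferCenterPow X ⟨b, hb⟩).2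
      (MonoidHom.transferCenterPow X ⟨a, ha⟩ : X)
  exact congrArg Subtype.val (hinj h4)

/-- The elements of `E` which commute with a positive power of every element of `E`. -/
def Wc (E : Subgroup G) : Subgroup G where
  carrier := {e | e ∈ E ∧ ∀ f ∈ E, ∃ n : ℕ, 0 < n ∧ Commute e (f ^ n)}
  one_mem' := ⟨E.one_mem, fun f _ => ⟨1, one_pos, Commute.one_left _⟩⟩
  mul_mem' := by
    rintro a b ⟨ha, ha'⟩ ⟨hb, hb'⟩
    refine ⟨E.mul_mem ha hb, ?_⟩
    intro f hf
    obtain ⟨n, hn, h1⟩ := ha' f hf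
    obtain ⟨m, hm, h2⟩ := hb' f hf
    refine ⟨n * m, Nat.mul_pos hn hm, ?_⟩
    apply Commute.mul_left
    · rw [pow_mul]
      exact h1.pow_right m
    · rw [mul_comm, pow_mul]
      exact h2.pow_right n
  inv_mem' := by
    rintro a ⟨ha, ha'⟩
    refine ⟨E.inv_mem ha, ?_⟩
    intro f hf
    obtain ⟨n, hn, h1⟩ := ha' f hf
    exact ⟨n, hn, h1.inv_left⟩

theorem mem_Wc {E : Subgroup G} {e : G} :
    e ∈ Wc E ↔ e ∈ E ∧ ∀ f ∈ E, ∃ n : ℕ, 0 < n ∧ Commute e (f ^ n) := Iff.rfl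

theorem Wc_le (E : Subgroup G) : Wc E ≤ E := fun _ h => h.1

theorem Wc_conj {E B : Subgroup G} (hn : ∀ e ∈ E, ∀ b ∈ B, e * b * e⁻¹ ∈ B) {e v : G}
    (he : e ∈ E) (hv : v ∈ Wc B) : e * v * e⁻¹ ∈ Wc B := by
  refine ⟨hn e he v hv.1, ?_⟩
  intro f hf
  have hf' : e⁻¹ * f * e ∈ B := by
    have := hn e⁻¹ (E.inv_mem he) f hf
    rwa [inv_inv] at this
  obtain ⟨n, hn, h1⟩ := hv.2 _ hf'
  refine ⟨n, hn, ?_⟩
  have h2 : (e⁻¹ * f * e) ^ n = e⁻¹ * f ^ n * e := by
    have := conj_pow (a := e⁻¹) (b := f) (i := n)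
    rwa [inv_inv] at this
  rw [h2] at h1
  have h3 : v * (e⁻¹ * f ^ n * e) = e⁻¹ * f ^ n * e * v := h1
  show e * v * e⁻¹ * f ^ n = f ^ n * (e * v * e⁻¹)
  calc e * v * e⁻¹ * f ^ n = e * (v * (e⁻¹ * f ^ n * e)) * e⁻¹ := by group
    _ = e * (e⁻¹ * f ^ n * e * v) * e⁻¹ := by rw [h3]
    _ = f ^ n * (e * v * e⁻¹) := by group

/-- An element which commutes with powers of the elements of a finitely generated abelian group
commutes with the `N`-th powers for some `N > 0`. -/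
theorem exists_pow_comm (A : Subgroup G) (hab : ∀ a ∈ A, ∀ b ∈ A, a * b = b * a) (hA : A.FG)
    (e : G) (he : ∀ a ∈ A, ∃ n : ℕ, 0 < n ∧ Commute e (a ^ n)) :
    ∃ N : ℕ, 0 < N ∧ ∀ a ∈ A, Commute e (a ^ N) := by
  classical
  obtain ⟨S, hS⟩ := hA
  have hSA : ∀ s ∈ S, s ∈ A := by
    intro s hs
    rw [← hS]
    exact Subgroup.subset_closure hs
  have hch : ∀ s : G, ∃ n : ℕ, 0 < n ∧ (s ∈ S → Commute e (s ^ n)) := by
    intro s
    by_cases hs : s ∈ S
    · obtain ⟨n, h1, h2⟩ := he s (hSA s hs)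
      exact ⟨n, h1, fun _ => h2⟩
    · exact ⟨1, one_pos, fun h => absurd h hs⟩
  choose c hc hc' using hch
  refine ⟨∏ s ∈ S, c s, Finset.prod_pos fun s _ => hc s, ?_⟩
  intro a ha
  have haS : a ∈ Subgroup.closure (S : Set G) := by rw [hS]; exact ha
  induction haS using Subgroup.closure_induction with
  | mem s hs =>
    obtain ⟨k, hk⟩ := Finset.dvd_prod_of_mem c hs
    rw [hk, pow_mul]
    exact (hc' s hs).pow_right k
  | one =>
    rw [one_pow]
    exact Commute.one_right e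
  | mul x y hx hy ihx ihy =>
    have hxA : x ∈ A := by rw [← hS]; exact hx
    have hyA : y ∈ A := by rw [← hS]; exact hy
    have hxy : Commute x y := hab x hxA y hyA
    rw [hxy.mul_pow]
    exact (ihx hxA).mul_right (ihy hyA)
  | inv x hx ihx =>
    have hxA : x ∈ A := by rw [← hS]; exact hx
    rw [inv_pow]
    exact (ihx hxA).inv_right

/-- In a torsion free virtually abelian group the elements of `Wc` commute. -/
theorem Wc_comm {T : Subgroup G} {D : ℕ} (hC : Ctx T D) {E : Subgroup G} (hE : E ≤ T)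
    (hV : VA E) : ∀ a ∈ Wc E, ∀ b ∈ Wc E, a * b = b * a := by
  obtain ⟨A, hAE, hAi, hab⟩ := hV
  intro e he e' he'
  have hA := hC.fg A hab
  obtain ⟨N, hN, h1⟩ := exists_pow_comm A hab hA e (fun a ha => he.2 a (hAE ha))
  obtain ⟨N', hN', h2⟩ := exists_pow_comm A hab hA e' (fun a ha => he'.2 a (hAE ha))
  let _ : CommGroup A := { (inferInstance : Group A) with
    mul_comm := fun a b => Subtype.ext (hab a.1 a.2 b.1 b.2) }
  have : Group.FG A := (Group.fg_iff_subgroup_fg A).2 hA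
  have hq := VN.fg_ab_pow_finite (B := A) (N * N') (Nat.mul_pos hN hN')
  set Q : Subgroup A := (powMonoidHom (N * N') : A →* A).range with hQ
  have hQi : Q.index ≠ 0 := Subgroup.index_ne_zero_of_finite (H := Q)
  set D' : Subgroup G := Q.map A.subtype with hD'
  have hD'A : D' ≤ A := by
    rintro _ ⟨x, _, rfl⟩
    exact x.2
  have hD'i : D'.relIndex A ≠ 0 := by
    have h3 : D'.subgroupOf A = Q := by
      rw [hD', Subgroup.subgroupOf, Subgroup.comap_map_eq_self_of_injective A.subtype_injective]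
    rw [Subgroup.relIndex, h3]
    exact hQi
  have hmem : ∀ d ∈ D', ∃ a ∈ A, d = a ^ (N * N') := by
    rintro _ ⟨_, ⟨x, rfl⟩, rfl⟩
    exact ⟨x.1, x.2, rfl⟩
  have hDE : D'.relIndex E ≠ 0 := Subgroup.relIndex_ne_zero_trans hD'i hAi
  set X : Subgroup G := E ⊓ Subgroup.centralizer (D' : Set G) with hXd
  have hX : X ≤ T := inf_le_left.trans hE
  have hXi : D'.relIndex X ≠ 0 := fun h =>
    hDE (Subgroup.relIndex_eq_zero_of_le_right (inf_le_left : X ≤ E) h)
  have hcm := ab_of_central hC.tf X D' hX (fun d hd x hx => by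
    have := Subgroup.mem_centralizer_iff.1 hx.2 d hd
    exact this) hXi
  apply hcm
  · refine Subgroup.mem_inf.2 ⟨he.1, ?_⟩
    rw [Subgroup.mem_centralizer_iff]
    intro d hd
    obtain ⟨a, ha, rfl⟩ := hmem d hd
    rw [pow_mul]
    exact ((h1 a ha).pow_right N').eq.symm
  · refine Subgroup.mem_inf.2 ⟨he'.1, ?_⟩
    rw [Subgroup.mem_centralizer_iff]
    intro d hd
    obtain ⟨a, ha, rfl⟩ := hmem d hd
    rw [mul_comm N, pow_mul]
    exact ((h2 a ha).pow_right N).eq.symm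

/-- A subgroup with an abelian subgroup `A` such that every element has a power in `A`. -/
theorem le_Wc {E A : Subgroup G} (hAE : A ≤ E) (hab : ∀ a ∈ A, ∀ b ∈ A, a * b = b * a)
    (hp : ∀ f ∈ E, ∃ n : ℕ, 0 < n ∧ f ^ n ∈ A) : A ≤ Wc E := by
  intro a ha
  refine ⟨hAE ha, ?_⟩
  intro f hf
  obtain ⟨n, hn, h1⟩ := hp f hf
  exact ⟨n, hn, hab a ha _ h1⟩

theorem exists_pow_mem {E A : Subgroup G} (hi : A.relIndex E ≠ 0) :
    ∃ N : ℕ, 0 < N ∧ ∀ f ∈ E, f ^ N ∈ A := by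
  refine ⟨(A.relIndex E).factorial, Nat.factorial_pos _, ?_⟩
  intro f hf
  exact (Subgroup.pow_mem_of_relIndex_ne_zero_of_dvd hi hf (fun m h1 h2 =>
    Nat.dvd_factorial h1 h2)).1

/-- A virtually abelian subgroup `B` which is normalized by `E` has an abelian subgroup of finite
index which is normalized by `E`. -/
theorem exists_normal {T : Subgroup G} {D : ℕ} (hC : Ctx T D) {E B : Subgroup G} (hB : B ≤ T)
    (hn : ∀ e ∈ E, ∀ b ∈ B, e * b * e⁻¹ ∈ B) (hV : VA B) :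
    ∃ V : Subgroup G, V ≤ B ∧ V.relIndex B ≠ 0 ∧ (∀ a ∈ V, ∀ b ∈ V, a * b = b * a) ∧
      ∀ e ∈ E, ∀ v ∈ V, e * v * e⁻¹ ∈ V := by
  refine ⟨Wc B, Wc_le B, ?_, Wc_comm hC hB hV, fun e he v hv => Wc_conj hn he hv⟩
  obtain ⟨A, hAB, hAi, hab⟩ := hV
  obtain ⟨N, hN, h1⟩ := exists_pow_mem hAi
  have h2 : A ≤ Wc B := le_Wc hAB hab (fun f hf => ⟨N, hN, h1 f hf⟩)
  exact fun h => hAi (Subgroup.relIndex_eq_zero_of_le_left h2 h)

end Pool.Agent.VEA
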