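import Pool.Agent.VEA.Core
import Pool.Agent.VS.LinAll
import Pool.Agent.VN.ICab
/-!
# Elementary amenable subgroups: residually finite groups of finite asymptotic dimension, discrete
linear groups, linear groups over number fields
-/
namespace Pool.Agent.VEA
open Pool.Agent.SLX Pool.Agent.VN Pool.Agent.VS Matrix

/-- The context: a torsion free subgroup of finite index. -/
theorem ctx_of {G : Type} [Group G] (h : HasSystem G) (hr : VN.ResFin G) {D : ℕ}
    (hD : VNP.AsdimLE G D) : ∃ T : Subgroup G, T.FiniteIndex ∧ Ctx T D := by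
  obtain ⟨l, κ, hone, hmul, hinv, hcl⟩ := data_of_system h hD
  obtain ⟨T, _, h2, h3⟩ := rf_kernel l hcl hr 1
  have hrk : ∀ (n : ℕ) (φ : Multiplicative (Fin n → ℤ) →* G), Function.Injective φ → n ≤ D :=
    fun n φ hφ => rank_le_of_injective hD φ hφ
  have hfg := ab_fg l hone hmul hinv hcl hr hrk
  refine ⟨T, h2, ?_, hfg, ?_, ?_, hrk⟩
  · intro x hx n hn hxn
    exact h3 x hx (tauLe_of_tors l hn hxn)
  · intro A hA
    obtain ⟨K, _, h5, h6⟩ := rf_normalizer l hone hmul hcl hr A (hfg A hA) hA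
    exact ⟨K, h5, h6⟩
  · intro P P0 h0 h0i h0s
    exact (rf_vsolvable l hone hmul hinv hcl hr hrk P P0 h0 h0i h0s).1

/-- Discrete linear groups, and linear groups over number fields, with a finite complete ShortLex
system are residually finite and of finite asymptotic dimension. -/
theorem classes_rf {G : Type} [Group G] (h : HasSystem G)
    (hG : (Group.ResiduallyFinite G ∧ ∃ D : ℕ, VNP.AsdimLE G D) ∨
      (∃ (n : ℕ) (ρ : G →* GL (Fin n) ℝ), Function.Injective ρ ∧ DiscreteTopology ρ.range) ∨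
      (∃ (K : Type) (_ : Field K) (_ : NumberField K) (n : ℕ) (ρ : G →* GL (Fin n) K),
        Function.Injective ρ)) :
    VN.ResFin G ∧ ∃ D : ℕ, VNP.AsdimLE G D := by
  rcases hG with ⟨hr, hD⟩ | ⟨n, ρ, hρ, hd⟩ | ⟨K, _, _, n, ρ, hρ⟩
  · refine ⟨?_, hD⟩
    intro g hg
    obtain ⟨N, hN⟩ := Group.exists_finiteIndexNormalSubgroup_notMem g hg
    exact ⟨N.toSubgroup, inferInstance, inferInstance, hN⟩
  · refine ⟨malcev (fg_of_system h) ρ hρ, ?_⟩
    apply asdim_linear ρ
    intro B
    have h1 := disc_finite ρ.range B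
    apply Set.Finite.of_injOn (f := fun g : G => (⟨ρ g, ⟨g, rfl⟩⟩ : ρ.range)) _ _ h1
    · intro g hg i j
      have h2 := hg i j
      refine ⟨h2.1, ?_⟩
      have h3 := h2.2
      rw [map_inv] at h3
      exact h3
    · intro g _ g' _ he
      exact hρ (congrArg Subtype.val he)
  · obtain ⟨m, σ, hσ⟩ := restrict_scalars ρ hρ
    exact ⟨malcev (fg_of_system h) σ hσ, ratlin_asdim (fg_of_system h) σ hσ⟩

/-- Elementary amenable subgroups are finitely generated, virtually abelian and undistorted. -/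
theorem classes_ea {G : Type} [Group G] (h : HasSystem G)
    (hG : (Group.ResiduallyFinite G ∧ ∃ D : ℕ, VNP.AsdimLE G D) ∨
      (∃ (n : ℕ) (ρ : G →* GL (Fin n) ℝ), Function.Injective ρ ∧ DiscreteTopology ρ.range) ∨
      (∃ (K : Type) (_ : Field K) (_ : NumberField K) (n : ℕ) (ρ : G →* GL (Fin n) K),
        Function.Injective ρ))
    (P : Subgroup G) (hP : ElementaryAmenable P) :
    (∃ H : Subgroup G, H ≤ P ∧ H.relIndex P ≠ 0 ∧ (∀ a ∈ H, ∀ b ∈ H, a * b = b * a)) ∧
      P.FG ∧ Undistorted P := by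
  obtain ⟨hr, D, hD⟩ := classes_rf h hG
  obtain ⟨T, hT, hC⟩ := ctx_of h hr hD
  obtain ⟨A, h1, h2, h3⟩ := elemamen_va hC hT P hP
  obtain ⟨l, κ, hone, hmul, hinv, hcl⟩ := data_of_system h hD
  refine rf_vsolvable l hone hmul hinv hcl hr
    (fun n φ hφ => rank_le_of_injective hD φ hφ) P A h1 h2 ?_
  let _ : CommGroup A := { (inferInstance : Group A) with
    mul_comm := fun a b => Subtype.ext (h3 a a.2 b b.2) }
  exact Group.isSolvable_of_comm (fun a b => mul_comm a b)

end Pool.Agent.VEA
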