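import Pool.Agent.VEA.Union
/-!
# Elementary amenable subgroups are virtually abelian
-/
namespace Pool.Agent.VEA

variable {G : Type} [Group G]

/-- The second projection of a correspondence. -/
def prR {H : Type} [Group H] (R : Subgroup (H × G)) : Subgroup G := R.map (MonoidHom.snd H G)

/-- The fibre over `1` of a correspondence. -/
def kerR {H : Type} [Group H] (R : Subgroup (H × G)) : Subgroup G := R.comap (MonoidHom.inr H G)

theorem mem_prR {H : Type} [Group H] {R : Subgroup (H × G)} {g : G} :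
    g ∈ prR R ↔ ∃ h : H, (h, g) ∈ R := by
  constructor
  · rintro ⟨⟨h, g'⟩, h1, rfl⟩
    exact ⟨h, h1⟩
  · rintro ⟨h, h1⟩
    exact ⟨(h, g), h1, rfl⟩

theorem mem_kerR {H : Type} [Group H] {R : Subgroup (H × G)} {g : G} :
    g ∈ kerR R ↔ ((1 : H), g) ∈ R := Iff.rfl

theorem kerR_le {H : Type} [Group H] (R : Subgroup (H × G)) : kerR R ≤ prR R := fun g hg =>
  mem_prR.2 ⟨1, hg⟩

theorem kerR_conj {H : Type} [Group H] (R : Subgroup (H × G)) {e b : G} (he : e ∈ prR R)
    (hb : b ∈ kerR R) : e * b * e⁻¹ ∈ kerR R := by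
  obtain ⟨h, h1⟩ := mem_prR.1 he
  have h2 := R.mul_mem (R.mul_mem h1 hb) (R.inv_mem h1)
  have h3 : (h, e) * ((1 : H), b) * (h, e)⁻¹ = ((1 : H), e * b * e⁻¹) := by
    ext <;> simp
  rw [mem_kerR, ← h3]
  exact h2

/-- The property proved by induction. -/
def Good (T : Subgroup G) (H : Type) [Group H] : Prop :=
  ∀ R : Subgroup (H × G), prR R ≤ T → VA (kerR R) → VA (prR R)

theorem good_finite (T : Subgroup G) (H : Type) [Group H] (hH : Finite H) : Good T H := by
  classical
  intro R _ hV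
  apply VA.of_fi (kerR_le R) _ hV
  have hch : ∀ x : prR R, ∃ h : H, (h, (x : G)) ∈ R := fun x => mem_prR.1 x.2
  choose c hc using hch
  have hinj : Function.Injective (fun q : prR R ⧸ (kerR R).subgroupOf (prR R) => c q.out) := by
    intro q q' h
    have h1 : c q.out = c q'.out := h
    rw [← q.out_eq', ← q'.out_eq']
    apply QuotientGroup.eq.2
    rw [Subgroup.mem_subgroupOf, mem_kerR]
    have h2 := R.mul_mem (R.inv_mem (hc q.out)) (hc q'.out)
    rw [h1] at h2
    have h3 : (c q'.out, ((q.out : prR R) : G))⁻¹ * (c q'.out, ((q'.out : prR R) : G)) =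
        ((1 : H), (((q.out)⁻¹ * q'.out : prR R) : G)) := by
      ext <;> simp
    rw [h3] at h2
    exact h2
  have hf : Finite (prR R ⧸ (kerR R).subgroupOf (prR R)) := Finite.of_injective _ hinj
  exact Subgroup.index_ne_zero_of_finite

theorem good_comm {T : Subgroup G} {D : ℕ} (hC : Ctx T D) (H : Type) [Group H]
    (hH : ∀ a b : H, a * b = b * a) : Good T H := by
  intro R hR hV
  apply va_of_comm hC hR (kerR_le R) (fun e he b hb => kerR_conj R he hb) hV
  intro x hx y hy
  obtain ⟨h, h1⟩ := mem_prR.1 hx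
  obtain ⟨k, h2⟩ := mem_prR.1 hy
  have h3 := R.mul_mem (R.mul_mem (R.mul_mem h1 h2) (R.inv_mem h1)) (R.inv_mem h2)
  have h4 : (h, x) * (k, y) * (h, x)⁻¹ * (k, y)⁻¹ = ((1 : H), x * y * x⁻¹ * y⁻¹) := by
    apply Prod.ext
    · show h * k * h⁻¹ * k⁻¹ = 1
      rw [hH h k]
      group
    · rfl
  rw [mem_kerR, ← h4]
  exact h3

theorem good_sub {T : Subgroup G} (H K : Type) [Group H] [Group K] (f : K →* H)
    (hf : Function.Injective f) (h : Good T H) : Good T K := by
  intro R hR hV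
  set R' : Subgroup (H × G) := R.map (f.prodMap (MonoidHom.id G)) with hR'
  have hmem : ∀ (k : K) (g : G), (k, g) ∈ R → (f k, g) ∈ R' := fun k g hk => ⟨(k, g), hk, rfl⟩
  have hmem' : ∀ (x : H) (g : G), (x, g) ∈ R' → ∃ k, f k = x ∧ (k, g) ∈ R := by
    rintro x g ⟨⟨k, g'⟩, h1, h2⟩
    have h3 : f k = x := congrArg Prod.fst h2
    have h4 : g' = g := congrArg Prod.snd h2
    subst h4
    exact ⟨k, h3, h1⟩
  have h1 : prR R' = prR R := by
    ext g
    rw [mem_prR, mem_prR]
    constructor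
    · rintro ⟨x, hx⟩
      obtain ⟨k, _, hk⟩ := hmem' x g hx
      exact ⟨k, hk⟩
    · rintro ⟨k, hk⟩
      exact ⟨f k, hmem k g hk⟩
  have h2 : kerR R' = kerR R := by
    ext g
    rw [mem_kerR, mem_kerR]
    constructor
    · intro hx
      obtain ⟨k, hk1, hk⟩ := hmem' 1 g hx
      have hk2 : k = 1 := hf (by rw [hk1, map_one])
      rwa [hk2] at hk
    · intro hk
      have := hmem 1 g hk
      rwa [map_one] at this
  have h3 := h R' (by rw [h1]; exact hR) (by rw [h2]; exact hV)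
  rwa [h1] at h3

theorem good_quot {T : Subgroup G} (H K : Type) [Group H] [Group K] (f : H →* K)
    (hf : Function.Surjective f) (h : Good T H) : Good T K := by
  intro R hR hV
  set R' : Subgroup (H × G) := R.comap (f.prodMap (MonoidHom.id G)) with hR'
  have hmem : ∀ (x : H) (g : G), (x, g) ∈ R' ↔ (f x, g) ∈ R := fun x g => Iff.rfl
  have h1 : prR R' = prR R := by
    ext g
    rw [mem_prR, mem_prR]
    constructor
    · rintro ⟨x, hx⟩
      exact ⟨f x, hx⟩
    · rintro ⟨k, hk⟩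
      obtain ⟨x, rfl⟩ := hf k
      exact ⟨x, hk⟩
  have h2 : kerR R' = kerR R := by
    ext g
    rw [mem_kerR, mem_kerR, hmem, map_one]
  have h3 := h R' (by rw [h1]; exact hR) (by rw [h2]; exact hV)
  rwa [h1] at h3

theorem good_ext {T : Subgroup G} (H : Type) [Group H] (N : Subgroup H) [N.Normal]
    (h : Good T N) (h' : Good T (H ⧸ N)) : Good T H := by
  intro R hR hV
  set R1 : Subgroup (N × G) := R.comap (N.subtype.prodMap (MonoidHom.id G)) with hR1
  set R2 : Subgroup ((H ⧸ N) × G) := R.map ((QuotientGroup.mk' N).prodMap (MonoidHom.id G))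
    with hR2
  have hm1 : ∀ (x : N) (g : G), (x, g) ∈ R1 ↔ ((x : H), g) ∈ R := fun x g => Iff.rfl
  have h1 : kerR R1 = kerR R := by
    ext g
    rw [mem_kerR, mem_kerR, hm1]
    rfl
  have h1' : prR R1 ≤ prR R := by
    intro g hg
    obtain ⟨x, hx⟩ := mem_prR.1 hg
    exact mem_prR.2 ⟨x, hx⟩
  have h2 : prR R2 = prR R := by
    ext g
    rw [mem_prR, mem_prR]
    constructor
    · rintro ⟨_, ⟨x, g'⟩, hx, he⟩
      have h4 : g' = g := congrArg Prod.snd he
      subst h4
      exact ⟨x, hx⟩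
    · rintro ⟨x, hx⟩
      exact ⟨QuotientGroup.mk' N x, (x, g), hx, rfl⟩
  have h3 : kerR R2 = prR R1 := by
    ext g
    rw [mem_kerR, mem_prR]
    constructor
    · rintro ⟨⟨x, g'⟩, hx, he⟩
      have h4 : g' = g := congrArg Prod.snd he
      have h5 : QuotientGroup.mk' N x = 1 := congrArg Prod.fst he
      subst h4
      have h6 : x ∈ N := (QuotientGroup.eq_one_iff x).1 h5
      exact ⟨⟨x, h6⟩, hx⟩
    · rintro ⟨x, hx⟩
      refine ⟨((x : H), g), hx, ?_⟩
      apply Prod.ext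
      · exact (QuotientGroup.eq_one_iff (x : H)).2 x.2
      · rfl
  have h4 : VA (prR R1) := h R1 (h1'.trans hR) (by rw [h1]; exact hV)
  have h5 := h' R2 (by rw [h2]; exact hR) (by rw [h3]; exact h4)
  rwa [h2] at h5

theorem good_union {T : Subgroup G} {D : ℕ} (hC : Ctx T D) (H : Type) [Group H] (ι : Type)
    (S : ι → Subgroup H) (hS : Directed (· ≤ ·) S) (hU : ∀ x : H, ∃ i, x ∈ S i)
    (h : ∀ i, Good T (S i)) : Good T H := by
  intro R hR hV
  have : Nonempty ι := by
    obtain ⟨i, _⟩ := hU 1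
    exact ⟨i⟩
  set RR : ∀ i, Subgroup (S i × G) := fun i => R.comap ((S i).subtype.prodMap (MonoidHom.id G))
    with hRR
  have hm : ∀ (i : ι) (x : S i) (g : G), (x, g) ∈ RR i ↔ ((x : H), g) ∈ R := fun i x g => Iff.rfl
  have h1 : ∀ i, kerR (RR i) = kerR R := by
    intro i
    ext g
    rw [mem_kerR, mem_kerR, hm]
    rfl
  have h1' : ∀ i, prR (RR i) ≤ prR R := by
    intro i g hg
    obtain ⟨x, hx⟩ := mem_prR.1 hg
    exact mem_prR.2 ⟨x, hx⟩
  apply va_of_union hC (fun i => prR (RR i)) _ (prR R) hR h1'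
  · intro g hg
    obtain ⟨x, hx⟩ := mem_prR.1 hg
    obtain ⟨i, hi⟩ := hU x
    exact ⟨i, mem_prR.2 ⟨⟨x, hi⟩, hx⟩⟩
  · intro i
    exact h i (RR i) ((h1' i).trans hR) (by rw [h1 i]; exact hV)
  · intro i j
    obtain ⟨k, hk, hk'⟩ := hS i j
    refine ⟨k, ?_, ?_⟩
    · intro g hg
      obtain ⟨x, hx⟩ := mem_prR.1 hg
      exact mem_prR.2 ⟨⟨x, hk x.2⟩, hx⟩
    · intro g hg
      obtain ⟨x, hx⟩ := mem_prR.1 hg
      exact mem_prR.2 ⟨⟨x, hk' x.2⟩, hx⟩

theorem good_of_elemamen {T : Subgroup G} {D : ℕ} (hC : Ctx T D) (H : Type) [hH : Group H]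
    (h : ElementaryAmenable H) : Good T H := by
  induction h with
  | finite H h => exact good_finite T H h
  | comm H h => exact good_comm hC H h
  | sub H K f hf _ ih => exact good_sub H K f hf ih
  | quot H K f hf _ ih => exact good_quot H K f hf ih
  | ext H N _ _ ih ih' => exact good_ext H N ih ih'
  | union H ι S hS hU _ ih => exact good_union hC H ι S hS hU ih

/-- Elementary amenable subgroups are virtually abelian. -/
theorem elemamen_va {T : Subgroup G} {D : ℕ} (hC : Ctx T D) (hT : T.FiniteIndex)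
    (P : Subgroup G) (hP : ElementaryAmenable P) :
    ∃ A : Subgroup G, A ≤ P ∧ A.relIndex P ≠ 0 ∧ ∀ a ∈ A, ∀ b ∈ A, a * b = b * a := by
  have hg := good_of_elemamen hC P hP
  set R : Subgroup (P × G) := (T.subgroupOf P).map ((MonoidHom.id P).prod P.subtype) with hR
  have hm : ∀ (x : P) (g : G), (x, g) ∈ R ↔ (x : G) ∈ T ∧ g = x := by
    intro x g
    constructor
    · rintro ⟨y, hy, he⟩
      have h1 : y = x := congrArg Prod.fst he
      have h2 : (y : G) = g := congrArg Prod.snd he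
      subst h1
      exact ⟨hy, h2.symm⟩
    · rintro ⟨h1, rfl⟩
      exact ⟨x, h1, rfl⟩
  have h1 : prR R = P ⊓ T := by
    ext g
    rw [mem_prR, Subgroup.mem_inf]
    constructor
    · rintro ⟨x, hx⟩
      obtain ⟨h2, rfl⟩ := (hm x g).1 hx
      exact ⟨x.2, h2⟩
    · rintro ⟨h2, h3⟩
      exact ⟨⟨g, h2⟩, (hm _ _).2 ⟨h3, rfl⟩⟩
  have h2 : VA (kerR R) := by
    refine ⟨⊥, bot_le, ?_, ?_⟩
    · have h3 : kerR R = ⊥ := by
        rw [eq_bot_iff]
        intro g hg'
        obtain ⟨_, h4⟩ := (hm 1 g).1 hg'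
        exact h4
      rw [h3, Subgroup.relIndex_self]
      exact one_ne_zero
    · intro a ha b hb
      rw [Subgroup.mem_bot] at ha hb
      rw [ha, hb]
  have h3 := hg R (by rw [h1]; exact inf_le_right) h2
  rw [h1] at h3
  apply VA.of_fi inf_le_left _ h3
  rw [Subgroup.inf_relIndex_left]
  exact fun h => hT.index_ne_zero (Subgroup.index_eq_zero_of_relIndex_eq_zero h)

end Pool.Agent.VEA
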