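import Mathlib
/-!
# Elementary amenable groups: definitions
-/
namespace Pool.Agent.VEA

/-- The class of elementary amenable groups: the smallest class of groups which contains all finite
groups and all abelian groups and is closed under subgroups, quotients, extensions and directed
unions. -/
inductive ElementaryAmenable : (H : Type) → [Group H] → Prop
  | finite (H : Type) [Group H] (h : Finite H) : ElementaryAmenable H
  | comm (H : Type) [Group H] (h : ∀ a b : H, a * b = b * a) : ElementaryAmenable H
  | sub (H K : Type) [Group H] [Group K] (f : K →* H) (hf : Function.Injective f)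
      (h : ElementaryAmenable H) : ElementaryAmenable K
  | quot (H K : Type) [Group H] [Group K] (f : H →* K) (hf : Function.Surjective f)
      (h : ElementaryAmenable H) : ElementaryAmenable K
  | ext (H : Type) [Group H] (N : Subgroup H) [N.Normal] (h : ElementaryAmenable N)
      (h' : ElementaryAmenable (H ⧸ N)) : ElementaryAmenable H
  | union (H : Type) [Group H] (ι : Type) (S : ι → Subgroup H) (hS : Directed (· ≤ ·) S)
      (hU : ∀ x : H, ∃ i, x ∈ S i) (h : ∀ i, ElementaryAmenable (S i)) : ElementaryAmenable H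

variable {G : Type} [Group G]

/-- `E` has an abelian subgroup of finite index. -/
def VA (E : Subgroup G) : Prop :=
  ∃ A : Subgroup G, A ≤ E ∧ A.relIndex E ≠ 0 ∧ ∀ a ∈ A, ∀ b ∈ A, a * b = b * a

/-- The properties of `G` which are used: `T` is a torsion free subgroup. -/
structure Ctx (T : Subgroup G) (D : ℕ) : Prop where
  tf : ∀ x ∈ T, ∀ n : ℕ, 0 < n → x ^ n = 1 → x = 1
  fg : ∀ A : Subgroup G, (∀ a ∈ A, ∀ b ∈ A, a * b = b * a) → A.FG
  norm : ∀ A : Subgroup G, (∀ a ∈ A, ∀ b ∈ A, a * b = b * a) → ∃ K : Subgroup G,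
    K.FiniteIndex ∧ ∀ y ∈ K, (∀ a ∈ A, y * a * y⁻¹ ∈ A) → ∀ a ∈ A, a * y = y * a
  solv : ∀ P P0 : Subgroup G, P0 ≤ P → P0.relIndex P ≠ 0 → Group.IsSolvable P0 → VA P
  rank : ∀ (n : ℕ) (φ : Multiplicative (Fin n → ℤ) →* G), Function.Injective φ → n ≤ D

end Pool.Agent.VEA
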