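import Pool.Agent.VEA.Basic
/-!
# Extensions and directed unions of torsion free virtually abelian groups
-/
namespace Pool.Agent.VEA

variable {G : Type} [Group G]

theorem VA.of_fi {E E' : Subgroup G} (h : E' ≤ E) (hi : E'.relIndex E ≠ 0) (hV : VA E') :
    VA E := by
  obtain ⟨A, h1, h2, h3⟩ := hV
  exact ⟨A, h1.trans h, Subgroup.relIndex_ne_zero_trans h2 hi, h3⟩

/-- Abelian quotients. -/
theorem va_of_comm {T : Subgroup G} {D : ℕ} (hC : Ctx T D) {E B : Subgroup G} (hE : E ≤ T)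
    (hBE : B ≤ E) (hn : ∀ e ∈ E, ∀ b ∈ B, e * b * e⁻¹ ∈ B) (hV : VA B)
    (hc : ∀ x ∈ E, ∀ y ∈ E, x * y * x⁻¹ * y⁻¹ ∈ B) : VA E := by
  obtain ⟨V, hVB, hVi, hVab, hVn⟩ := exists_normal hC (hBE.trans hE) hn hV
  obtain ⟨K, hK, hKc⟩ := hC.norm V hVab
  have hKi : ∀ L : Subgroup G, K.relIndex L ≠ 0 := fun L h =>
    hK.index_ne_zero (Subgroup.index_eq_zero_of_relIndex_eq_zero h)
  have hB1 : ∀ a ∈ B ⊓ K, ∀ b ∈ B ⊓ K, a * b = b * a := by
    apply ab_of_central hC.tf (B ⊓ K) (V ⊓ K) (inf_le_left.trans (hBE.trans hE))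
    · intro d hd x hx
      have hx' := Subgroup.mem_inf.1 hx
      exact hKc x hx'.2 (fun a ha => hVn x (hBE hx'.1) a ha) d (Subgroup.mem_inf.1 hd).1
    · apply Subgroup.relIndex_inf_ne_zero
      · exact fun h => hVi (Subgroup.relIndex_eq_zero_of_le_right inf_le_left h)
      · exact hKi _
  apply hC.solv E (E ⊓ K) inf_le_left
  · rw [Subgroup.inf_relIndex_left]
    exact hKi E
  · have h1 : derivedSeries (E ⊓ K : Subgroup G) 1 ≤ (B ⊓ K).subgroupOf (E ⊓ K) := by
      rw [derivedSeries_succ, derivedSeries_zero, Subgroup.commutator_le]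
      intro x _ y _
      rw [commutatorElement_def, Subgroup.mem_subgroupOf, Subgroup.mem_inf]
      have hx := Subgroup.mem_inf.1 x.2
      have hy := Subgroup.mem_inf.1 y.2
      exact ⟨hc x hx.1 y hy.1, K.mul_mem (K.mul_mem (K.mul_mem hx.2 hy.2) (K.inv_mem hx.2))
        (K.inv_mem hy.2)⟩
    have h3 : derivedSeries (E ⊓ K : Subgroup G) 2 = ⊥ := by
      rw [derivedSeries_succ, eq_bot_iff, Subgroup.commutator_le]
      intro x hx y hy
      have hx' := Subgroup.mem_subgroupOf.1 (h1 hx)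
      have hy' := Subgroup.mem_subgroupOf.1 (h1 hy)
      rw [Subgroup.mem_bot, commutatorElement_eq_one_iff_mul_comm]
      exact Subtype.ext (hB1 _ hx' _ hy')
    exact ⟨⟨2, h3⟩⟩

/-- Adding one more generator to a free abelian subgroup. -/
theorem exists_succ {A : Subgroup G} (hab : ∀ a ∈ A, ∀ b ∈ A, a * b = b * a) {r : ℕ}
    (φ : Multiplicative (Fin r → ℤ) →* G) (hφ : Function.Injective φ) (hφA : ∀ v, φ v ∈ A)
    {a : G} (ha : a ∈ A) (hno : ∀ n : ℕ, 0 < n → ∀ v, a ^ n ≠ φ v) :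
    ∃ ψ : Multiplicative (Fin (r + 1) → ℤ) →* G, Function.Injective ψ ∧ ∀ v, ψ v ∈ A := by
  set ψ : Multiplicative (Fin (r + 1) → ℤ) →* G := MonoidHom.mk'
    (fun v => φ (Multiplicative.ofAdd (fun i => Multiplicative.toAdd v i.succ)) *
      a ^ (Multiplicative.toAdd v 0)) (by
      intro u v
      have h1 : (Multiplicative.ofAdd (fun i : Fin r => Multiplicative.toAdd (u * v) i.succ)) =
          Multiplicative.ofAdd (fun i : Fin r => Multiplicative.toAdd u i.succ) *
          Multiplicative.ofAdd (fun i : Fin r => Multiplicative.toAdd v i.succ) := rfl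
      have h2 : Multiplicative.toAdd (u * v) 0 = Multiplicative.toAdd u 0 +
          Multiplicative.toAdd v 0 := rfl
      rw [h1, h2, map_mul, zpow_add]
      have h3 := hab _ (hφA (Multiplicative.ofAdd
        (fun i : Fin r => Multiplicative.toAdd v i.succ))) _
        (A.zpow_mem ha (Multiplicative.toAdd u 0))
      rw [mul_assoc, mul_assoc, ← mul_assoc (φ (Multiplicative.ofAdd
        (fun i : Fin r => Multiplicative.toAdd v i.succ))) (a ^ (Multiplicative.toAdd u 0)), h3,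
        mul_assoc]) with hψ
  have hψv : ∀ v, ψ v = φ (Multiplicative.ofAdd (fun i => Multiplicative.toAdd v i.succ)) *
      a ^ (Multiplicative.toAdd v 0) := fun v => rfl
  refine ⟨ψ, ?_, ?_⟩
  · rw [injective_iff_map_eq_one]
    intro v hv
    rw [hψv] at hv
    have h0 : Multiplicative.toAdd v 0 = 0 := by
      by_contra hne
      have h1 : a ^ (Multiplicative.toAdd v 0) =
          φ (Multiplicative.ofAdd (fun i => Multiplicative.toAdd v i.succ))⁻¹ := by
        rw [map_inv]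
        exact eq_inv_of_mul_eq_one_right hv
      rcases lt_or_gt_of_ne hne with h2 | h2
      · apply hno (-(Multiplicative.toAdd v 0)).toNat (by omega)
          (Multiplicative.ofAdd (fun i => Multiplicative.toAdd v i.succ))
        rw [← zpow_natCast, Int.toNat_of_nonneg (by omega), zpow_neg, h1, map_inv, inv_inv]
      · apply hno (Multiplicative.toAdd v 0).toNat (by omega)
          (Multiplicative.ofAdd (fun i => Multiplicative.toAdd v i.succ))⁻¹
        rw [← zpow_natCast, Int.toNat_of_nonneg (by omega), h1]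
    rw [h0, zpow_zero, mul_one] at hv
    have h3 := (injective_iff_map_eq_one φ).1 hφ _ hv
    apply Multiplicative.toAdd.injective
    funext i
    refine Fin.cases ?_ (fun j => ?_) i
    · exact h0
    · exact congrFun (congrArg Multiplicative.toAdd h3) j
  · intro v
    rw [hψv]
    exact A.mul_mem (hφA _) (A.zpow_mem ha _)

/-- Directed unions. -/
theorem va_of_union {T : Subgroup G} {D : ℕ} (hC : Ctx T D) {ι : Type} [Nonempty ι]
    (E : ι → Subgroup G) (hd : Directed (· ≤ ·) E) (F : Subgroup G) (hF : F ≤ T)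
    (hEF : ∀ i, E i ≤ F) (hU : ∀ x ∈ F, ∃ i, x ∈ E i) (hV : ∀ i, VA (E i)) : VA F := by
  classical
  set Q : ℕ → Prop := fun n => ∃ (i : ι) (φ : Multiplicative (Fin n → ℤ) →* G),
    Function.Injective φ ∧ ∀ v, φ v ∈ E i with hQ
  have hQ0 : Q 0 := by
    refine ⟨Classical.arbitrary ι, 1, ?_, fun v => (E _).one_mem⟩
    intro u v _
    apply Multiplicative.toAdd.injective
    exact Subsingleton.elim _ _
  obtain ⟨r, hr⟩ : ∃ r, r = Nat.findGreatest Q D := ⟨_, rfl⟩
  have hQr : Q r := by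
    rw [hr]
    exact Nat.findGreatest_spec (P := Q) (Nat.zero_le D) hQ0
  obtain ⟨i0, φ, hφ, hφE⟩ := hQr
  have hmax : ¬ Q (r + 1) := by
    intro h
    obtain ⟨i, ψ, hψ, hψ'⟩ := h
    have hle : r + 1 ≤ D := hC.rank _ ψ hψ
    have := Nat.le_findGreatest (P := Q) hle ⟨i, ψ, hψ, hψ'⟩
    omega
  -- every element has a power in the range of `φ`
  have hpow : ∀ f ∈ F, ∃ m : ℕ, 0 < m ∧ f ^ m ∈ φ.range := by
    intro f hf
    obtain ⟨i1, hi1⟩ := hU f hf
    obtain ⟨j, hj0, hj1⟩ := hd i0 i1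
    have hfj : f ∈ E j := hj1 hi1
    obtain ⟨A, hAE, hAi, hab⟩ := hV j
    obtain ⟨N, hN, hNA⟩ := exists_pow_mem hAi
    by_contra hno
    push Not at hno
    apply hmax
    set φ' : Multiplicative (Fin r → ℤ) →* G := φ.comp (powMonoidHom N) with hφ'
    have hφ'v : ∀ v, φ' v = (φ v) ^ N := fun v => map_pow φ v N
    have hφ'A : ∀ v, φ' v ∈ A := fun v => by
      rw [hφ'v]
      exact hNA _ (hj0 (hφE v))
    have hφ'i : Function.Injective φ' := by
      rw [injective_iff_map_eq_one]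
      intro v hv
      have h1 : φ (v ^ N) = 1 := hv
      have h2 := (injective_iff_map_eq_one φ).1 hφ _ h1
      apply Multiplicative.toAdd.injective
      funext i
      have h3 : N • (Multiplicative.toAdd v i) = 0 := congrFun (congrArg Multiplicative.toAdd h2) i
      rw [nsmul_eq_mul, mul_eq_zero] at h3
      rcases h3 with h3 | h3
      · exact absurd (by exact_mod_cast h3) hN.ne'
      · exact h3
    obtain ⟨ψ, hψ, hψA⟩ := exists_succ hab φ' hφ'i hφ'A (hNA f hfj) (by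
      intro n hn v hv
      apply hno (N * n) (Nat.mul_pos hN hn)
      rw [pow_mul, hv]
      exact ⟨v ^ N, rfl⟩)
    exact ⟨j, ψ, hψ, fun v => hAE (hψA v)⟩
  have hAF : φ.range ≤ F := by
    rintro _ ⟨v, rfl⟩
    exact hEF i0 (hφE v)
  have hAab : ∀ a ∈ φ.range, ∀ b ∈ φ.range, a * b = b * a := by
    rintro _ ⟨u, rfl⟩ _ ⟨v, rfl⟩
    rw [← map_mul, ← map_mul, mul_comm]
  have hAW : φ.range ≤ Wc F := le_Wc hAF hAab hpow
  have hWab : ∀ a ∈ Wc F, ∀ b ∈ Wc F, a * b = b * a := by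
    intro a ha b hb
    obtain ⟨i, hi⟩ := hU a ha.1
    obtain ⟨i', hi'⟩ := hU b hb.1
    obtain ⟨j, hj, hj'⟩ := hd i i'
    exact Wc_comm hC ((hEF j).trans hF) (hV j) a ⟨hj hi, fun f hf => ha.2 f (hEF j hf)⟩ b
      ⟨hj' hi', fun f hf => hb.2 f (hEF j hf)⟩
  obtain ⟨K, hK, hKc⟩ := hC.norm (Wc F) hWab
  have hKW : F ⊓ K ≤ Wc F := by
    intro y hy
    have hy' := Subgroup.mem_inf.1 hy
    refine ⟨hy'.1, ?_⟩
    intro f hf
    obtain ⟨m, hm, hmA⟩ := hpow f hf
    refine ⟨m, hm, ?_⟩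
    exact (hKc y hy'.2 (fun a ha => Wc_conj (fun e he b hb =>
      F.mul_mem (F.mul_mem he hb) (F.inv_mem he)) hy'.1 ha) _ (hAW hmA)).symm
  refine ⟨Wc F, Wc_le F, ?_, hWab⟩
  intro h
  have h1 := Subgroup.relIndex_eq_zero_of_le_left hKW h
  rw [Subgroup.inf_relIndex_left] at h1
  exact hK.index_ne_zero (Subgroup.index_eq_zero_of_relIndex_eq_zero h1)

end Pool.Agent.VEA
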